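import Mathlib

set_option autoImplicit false

namespace Pool.Agent.Results.MP_987c99_al.Counter

open MvPolynomial Cardinal

section
variable {k : Type} [Field k] {n : ℕ}

abbrev Pl (k : Type) [Field k] (n : ℕ) := MvPolynomial (Fin n) k

/-- A graded Poisson bracket: `br a` is a derivation, linear in `a`. -/
def IsGP (br : Pl k n →ₗ[k] Derivation k (Pl k n) (Pl k n)) : Prop :=
  (∀ a, br a a = 0) ∧ (∀ a b c, br a (br b c) + br b (br c a) + br c (br a b) = 0) ∧
    ∀ i j, (br (X i) (X j)).IsHomogeneous 2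

noncomputable def Z (br : Pl k n →ₗ[k] Derivation k (Pl k n) (Pl k n)) : Subring (Pl k n) where
  carrier := {z | ∀ a, br a z = 0}
  mul_mem' hx hy a := by simp [hx a, hy a]
  one_mem' a := by simp
  add_mem' hx hy a := by simp [hx a, hy a]
  zero_mem' a := by simp
  neg_mem' hx a := by simp [hx a]

noncomputable def loz (br : Pl k n →ₗ[k] Derivation k (Pl k n) (Pl k n)) :
    AddSubgroup (Derivation k (Pl k n) (Pl k n)) :=
  AddSubgroup.closure {δ | ∃ f, f ≠ 0 ∧ ∀ a, br a f = f * δ a}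
end

abbrev K := AlgebraicClosure (ZMod 2)
abbrev P := Pl K 4

noncomputable def D (a : K) : Derivation K P P :=
  mkDerivation K fun i => if i = 3 then 0 else X i * (X i + C a * X 0)

noncomputable def br (a : K) : P →ₗ[K] Derivation K P P where
  toFun f := pderiv 3 f • D a - D a f • pderiv 3
  map_add' f g := Derivation.ext fun _ => by simp; ring
  map_smul' c f := Derivation.ext fun _ => by simp [smul_eq_C_mul]; ring

lemma br_apply (a : K) (f g : P) : br a f g = pderiv 3 f * D a g - D a f * pderiv 3 g := by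
  simp [br]

lemma DX (a : K) (i : Fin 4) : D a (X i) = if i = 3 then 0 else X i * (X i + C a * X 0) :=
  mkDerivation_X _ _ _

lemma comm (a : K) (f : P) : pderiv 3 (D a f) = D a (pderiv 3 f) := by
  have : ⁅(pderiv 3 : Derivation K P P), D a⁆ = 0 := by
    refine derivation_ext fun i => ?_
    rw [Derivation.commutator_apply, DX]
    fin_cases i <;> simp [pderiv_X, Pi.single_apply]
  have h := congrArg (fun δ : Derivation K P P => δ f) this
  simpa [Derivation.commutator_apply, sub_eq_zero] using h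

lemma gp (a : K) : IsGP (br a) := by
  refine ⟨fun f => by rw [br_apply]; ring, fun f g h => ?_, fun i j => ?_⟩
  · simp only [br_apply, map_sub, Derivation.leibniz, smul_eq_mul, comm]; ring
  · have h : ∀ i, (D a (X i)).IsHomogeneous 2 := fun i => by
      rw [DX]; split_ifs
      · exact isHomogeneous_zero _ _ _
      · exact (isHomogeneous_X _ _).mul ((isHomogeneous_X _ _).add (isHomogeneous_C_mul_X _ _))
    have h0 : ∀ i, (pderiv 3 (X i : P)).IsHomogeneous 0 := fun i => by
      rw [pderiv_X, Pi.single_apply]; split_ifs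
      · exact isHomogeneous_one _ _
      · exact isHomogeneous_zero _ _ _
    rw [br_apply]
    exact ((h0 i).mul (h j)).sub ((h i).mul (h0 j))

lemma two : (2 : P) = 0 := CharTwo.two_eq_zero

lemma cen (a : K) (z : P) (h1 : pderiv 3 z = 0) (h2 : D a z = 0) : z ∈ Z (br a) :=
  fun f => by rw [br_apply, h1, h2]; ring

lemma sq_mem (a : K) (f : P) : f * f ∈ Z (br a) :=
  cen a _ (by rw [Derivation.leibniz, ← two_smul P, two, zero_smul])
    (by rw [Derivation.leibniz, ← two_smul P, two, zero_smul])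

noncomputable def b : Fin 2 × Fin 2 × Fin 2 → P := fun t =>
  X 0 ^ (t.1 : ℕ) * X 1 ^ (t.2.1 : ℕ) * X 3 ^ (t.2.2 : ℕ)

lemma rank_le (a : K) : Module.rank (Z (br a)) P ≤ 8 := by
  let M := Submodule.span (Z (br a)) (Set.range b)
  have hb : ∀ t, b t ∈ M := fun t => Submodule.subset_span ⟨t, rfl⟩
  have hz : ∀ z ∈ Z (br a), ∀ f ∈ M, z * f ∈ M := fun z hz f hf => M.smul_mem ⟨z, hz⟩ hf
  have hm : ∀ g, (∀ t, g * b t ∈ M) → ∀ f ∈ M, g * f ∈ M := fun g hg f hf => by
    induction hf using Submodule.span_induction with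
    | mem _ h => obtain ⟨t, rfl⟩ := h; exact hg t
    | zero => simp
    | add _ _ _ _ h1 h2 => rw [mul_add]; exact M.add_mem h1 h2
    | smul c _ _ h => rw [mul_smul_comm]; exact M.smul_mem c h
  have h0 : ∀ f ∈ M, X 0 * f ∈ M := hm _ fun ⟨i, j, l⟩ => by
    fin_cases i
    · convert hb (1, j, l) using 1; simp [b]; ring
    · convert hz _ (sq_mem a (X 0)) _ (hb (0, j, l)) using 1; simp [b]; ring
  have h1 : ∀ f ∈ M, X 1 * f ∈ M := hm _ fun ⟨i, j, l⟩ => by
    fin_cases j
    · convert hb (i, 1, l) using 1; simp [b]; ring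
    · convert hz _ (sq_mem a (X 1)) _ (hb (i, 0, l)) using 1; simp [b]; ring
  have h3 : ∀ f ∈ M, X 3 * f ∈ M := hm _ fun ⟨i, j, l⟩ => by
    fin_cases l
    · convert hb (i, j, 1) using 1; simp [b]; ring
    · convert hz _ (sq_mem a (X 3)) _ (hb (i, j, 0)) using 1; simp [b]; ring
  have hh : (X 0 * X 2 * (X 0 + X 1) * (X 2 + X 1) : P) ∈ Z (br a) := cen a _
    (by simp [pderiv_X, Pi.single_apply]) (by
      simp only [Derivation.leibniz, map_add, DX, smul_eq_mul]
      simp only [Fin.reduceEq, if_false]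
      linear_combination ((X 0 * X 2 * (X 0 + X 1) * (X 2 + X 1) * (X 0 + X 1 + X 2 + 2 * C a * X 0)
        - X 0 * X 2 * X 1 * (X 0 * (X 2 + X 1) + X 2 * (X 0 + X 1)) : P)) * two)
  let s : P := X 0 * X 1 * (X 0 + X 1)
  have hs : s ≠ 0 := mul_ne_zero (mul_ne_zero (X_ne_zero _) (X_ne_zero _)) fun h => by
    simpa using congrArg (eval ![1, 0, 0, 0]) h
  have hsM : ∀ f ∈ M, s * f ∈ M := fun f hf => by
    rw [mul_assoc, mul_assoc, add_mul]; exact h0 _ (h1 _ (M.add_mem (h0 f hf) (h1 f hf)))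
  have h2 : ∀ f ∈ M, s * s * X 2 * f ∈ M := fun f hf => by
    have := hsM _ (M.add_mem (hz _ hh f hf) (hz _ (sq_mem a (X 2)) _
      (M.add_mem (hz _ (sq_mem a (X 0)) f hf) (h0 _ (h1 f hf)))))
    convert this using 1
    simp only [s]
    linear_combination (-(X 0 * X 1 * (X 0 + X 1) * f * X 2 * X 2 * X 0 * (X 0 + X 1)) : P) * two
  have tor : ∀ f : P, ∃ k : ℕ, (s * s) ^ k * f ∈ M := fun f => by
    induction f using MvPolynomial.induction_on with
    | C c => exact ⟨0, by simpa [b] using hz _ (cen a (C c) (by simp) (by simp)) _ (hb 0)⟩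
    | add f g hf hg =>
      obtain ⟨k, hk⟩ := hf
      obtain ⟨l, hl⟩ := hg
      refine ⟨k + l, ?_⟩
      convert M.add_mem (hz _ (pow_mem (sq_mem a s) l) _ hk) (hz _ (pow_mem (sq_mem a s) k) _ hl)
        using 1
      ring
    | mul_X f i hf =>
      obtain ⟨k, hk⟩ := hf
      fin_cases i
      · exact ⟨k, by convert h0 _ hk using 1; simp; ring⟩
      · exact ⟨k, by convert h1 _ hk using 1; simp; ring⟩
      · exact ⟨k + 1, by convert h2 _ hk using 1; simp; ring⟩
      · exact ⟨k, by convert h3 _ hk using 1; simp; ring⟩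
  have hq : Module.rank (Z (br a)) (P ⧸ M) = 0 := rank_eq_zero_iff.mpr fun x => by
    obtain ⟨f, rfl⟩ := M.mkQ_surjective x
    obtain ⟨k, hk⟩ := tor f
    refine ⟨⟨_, pow_mem (sq_mem a s) k⟩, fun h => pow_ne_zero k (mul_ne_zero hs hs)
      (congrArg Subtype.val h), ?_⟩
    rw [← map_smul, Submodule.mkQ_apply, Submodule.Quotient.mk_eq_zero]
    exact hk
  rw [← rank_quotient_add_rank_of_isDomain M, hq, zero_add]
  exact (rank_span_le _).trans (mk_range_le.trans (by simp))

lemma loz_mem (a : K) (f c : P) (h0 : f ≠ 0) (h1 : pderiv 3 f = 0) (h2 : D a f = f * c) :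
    c • pderiv 3 ∈ loz (br a) :=
  AddSubgroup.subset_closure ⟨f, h0, fun g => by rw [br_apply, h1, h2]; simp; ring⟩

theorem result : ∃ (k : Type) (_ : Field k) (p n : ℕ)
    (br : Pl k n →ₗ[k] Derivation k (Pl k n) (Pl k n)), 0 < p ∧ CharP k p ∧ IsAlgClosed k ∧
    IsGP br ∧ Module.rank (Z br) (Pl k n) < #(loz br) := by
  classical
  obtain ⟨a, ha⟩ := Infinite.exists_notMem_finset ({0, 1} : Finset K)
  simp only [Finset.mem_insert, Finset.mem_singleton, not_or] at ha
  refine ⟨K, inferInstance, 2, 4, br a, two_pos, inferInstance, inferInstance, gp a,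
    (rank_le a).trans_lt ?_⟩
  have e : ∀ i : Fin 4, i ≠ 3 → (X i + C a * X 0 : P) • pderiv 3 ∈ loz (br a) := fun i hi =>
    loz_mem a _ _ (X_ne_zero i) (by simp [pderiv_X, Pi.single_apply, hi]) (by rw [DX, if_neg hi])
  have e3 : (X 0 + X 1 + C a * X 0 : P) • pderiv 3 ∈ loz (br a) :=
    loz_mem a (X 0 + X 1) _ (fun h => by simpa using congrArg (eval ![1, 0, 0, 0]) h)
      (by simp [pderiv_X, Pi.single_apply]) (by
        simp only [map_add, DX, Fin.reduceEq, if_false]
        linear_combination (-(X 0 * X 1) : P) * two)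
  have e0 : (X 0 : P) • pderiv 3 ∈ loz (br a) := by
    convert sub_mem e3 (e 1 (by decide)) using 1
    exact Derivation.ext fun _ => by simp; ring
  have ea : (C a * X 0 : P) • pderiv 3 ∈ loz (br a) := by
    convert sub_mem (e 0 (by decide)) e0 using 1
    exact Derivation.ext fun _ => by simp; ring
  have ei : ∀ i : Fin 4, i ≠ 3 → (X i : P) • pderiv 3 ∈ loz (br a) := fun i hi => by
    convert sub_mem (e i hi) ea using 1
    exact Derivation.ext fun _ => by simp; ring
  have hc : ∀ (m : Fin 2) (c : P), c • pderiv 3 ∈ loz (br a) →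
      (((m : ℕ) : P) * c) • pderiv 3 ∈ loz (br a) := fun m c h => by
    fin_cases m
    · convert zero_mem (loz (br a)) using 1
      exact Derivation.ext fun _ => by simp
    · simpa using h
  let c : Fin 2 × Fin 2 × Fin 2 × Fin 2 → P := fun t => ((t.1 : ℕ) : P) * X 0 +
    ((t.2.1 : ℕ) : P) * X 1 + ((t.2.2.1 : ℕ) : P) * X 2 + ((t.2.2.2 : ℕ) : P) * (C a * X 0)
  have hm : ∀ t, c t • pderiv 3 ∈ loz (br a) := fun t => by
    convert add_mem (add_mem (add_mem (hc t.1 _ e0) (hc t.2.1 _ (ei 1 (by decide))))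
      (hc t.2.2.1 _ (ei 2 (by decide)))) (hc t.2.2.2 _ ea) using 1
    exact Derivation.ext fun _ => by simp [c]; ring
  have hF : Function.Injective fun t => (⟨_, hm t⟩ : loz (br a)) := by
    rintro ⟨t0, t1, t2, t3⟩ ⟨u0, u1, u2, u3⟩ h
    have h1 : c (t0, t1, t2, t3) = c (u0, u1, u2, u3) := by
      simpa using congrArg (fun δ : loz (br a) => δ.1 (X 3)) h
    have h2 := congrArg (eval ![1, 0, 0, 0]) h1
    have h3 := congrArg (eval ![0, 1, 0, 0]) h1
    have h4 := congrArg (eval ![0, 0, 1, 0]) h1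
    simp [c] at h2 h3 h4
    have h6 : (1 : K) + a ≠ 0 := fun h => ha.2 (by
      linear_combination h - (CharTwo.two_eq_zero : (2 : K) = 0))
    have k1 : ∀ x y : Fin 2, ((x : ℕ) : K) = (y : ℕ) → x = y := fun x y => by
      fin_cases x <;> fin_cases y <;> simp
    have k2 : ∀ x y z w : Fin 2, ((x : ℕ) : K) + (y : ℕ) * a = (z : ℕ) + (w : ℕ) * a →
        x = z ∧ y = w := fun x y z w => by
      fin_cases x <;> fin_cases y <;> fin_cases z <;> fin_cases w <;>
        simp [ha.1, ha.2, h6, h6.symm, Ne.symm ha.1, Ne.symm ha.2]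
    rw [(k2 _ _ _ _ h2).1, k1 _ _ h3, k1 _ _ h4, (k2 _ _ _ _ h2).2]
  refine lt_of_lt_of_le ?_ (mk_le_of_injective hF)
  simp only [mk_fintype, Fintype.card_prod, Fintype.card_fin]
  norm_num

end Pool.Agent.Results.MP_987c99_al.Counter
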